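import Pool.Agent.Q120.FZ.Stm
import Pool.Agent.Q120.RZ.Main

/-!
# Project FZ, assembly
-/

set_option autoImplicit false

namespace Pool.Agent.Q120.FZ

open Finset MeasureTheory Filter Pool.Agent.Q120.ET Pool.Agent.Q120.GM Pool.Agent.Q120.TT
open scoped Topology

/-- `F s = ∑ lam S n * n ^ (-s)` has an analytic continuation without zeros to `Re s > θ`, with the Lindelöf bound in a strong form. -/
def Lin (S : Set ℕ) (θ : ℝ) : Prop := ∃ G : ℂ → ℂ, DifferentiableOn ℂ G {s | θ < s.re} ∧ (∀ s : ℂ, θ < s.re → G s ≠ 0) ∧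
  (∀ s : ℂ, 1 < s.re → G s = LSeries (fun n => (lam S n : ℂ)) s) ∧
    ∀ σ : ℝ, θ < σ → σ < 1 → ∃ C : ℝ, ∀ s : ℂ, σ ≤ s.re → |Real.log ‖G s‖| ≤ C * (Real.log (|s.im| + 3)) ^ (1 - σ)

/-- The partial sums have exponent `θ`. -/
def Mer (S : Set ℕ) (θ : ℝ) : Prop := ∀ ε : ℝ, 0 < ε → ∃ C : ℝ, ∀ x : ℕ, 1 ≤ x → |∑ n ∈ Icc 1 x, lam S n| ≤ C * (x : ℝ) ^ (θ + ε)

/-- There is an analytic continuation to `Re s > θ`. -/
def Cnt (S : Set ℕ) (θ : ℝ) : Prop := ∃ G : ℂ → ℂ, DifferentiableOn ℂ G {s | θ < s.re} ∧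
  ∀ s : ℂ, 1 < s.re → G s = LSeries (fun n => (lam S n : ℂ)) s

/-- All random functions with entropy deficit at most `2 ^ ((δ + o(1)) k)` have almost surely the property `P`. -/
def AllF (δ : ℝ) (P : Set ℕ → Prop) : Prop :=
  ∀ (Ω : Type) [MeasurableSpace Ω] (μ : Measure Ω) [IsProbabilityMeasure μ] (A : Ω → Set ℕ), IsRandomSet A →
    InfoF μ A δ → ∀ᵐ ω ∂μ, P (A ω)

/-- Some random function with entropy deficit at most `2 ^ (δ k)` in each block has almost surely the property `P`. -/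
def SomeF (δ : ℝ) (P : Set ℕ → Prop) : Prop :=
  ∃ (Ω : Type) (_ : MeasurableSpace Ω) (μ : Measure Ω) (_ : IsProbabilityMeasure μ) (A : Ω → Set ℕ), IsRandomSet A ∧
    (∀ k : ℕ, relEnt half μ A (pb k) ≤ (2 : ℝ) ^ (δ * k)) ∧ ∀ᵐ ω ∂μ, P (A ω)

/-- The jobs. -/
structure Jobs : Prop where
  entg : J_ENTG
  hoef : J_HOEF
  sup : J_SUP
  asf : J_ASF
  cont : J_CONT
  lgp : J_LGP
  eul : J_EUL
  riesz : J_RIESZ
  shift : J_SHIFT
  perr : J_PERR
  klf : J_KLF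
  tail : Pool.Agent.Q120.RZ.J_TAIL
  shf : J_SHF
  an : Pool.Agent.Q120.RZ.J_AN
  pole : J_POLE

theorem log_ge_one (t : ℝ) : 1 ≤ Real.log (|t| + 3) := by
  have h1 : Real.log (Real.exp 1) ≤ Real.log (|t| + 3) := by
    refine Real.log_le_log (Real.exp_pos 1) ?_
    have := Real.exp_one_lt_d9
    have := abs_nonneg t
    linarith
  rwa [Real.log_exp] at h1

section

variable (J : Jobs)

include J

theorem lin_of_tw {S : Set ℕ} {θ₀ θ : ℝ} (h1 : 1 / 2 ≤ θ₀) (h2 : θ₀ < 1) (h3 : θ₀ ≤ θ) (h : Tw S θ₀) : Lin S θ := by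
  obtain ⟨P, hP, hP1, hPb⟩ := J.cont S θ₀ h1 h2 h
  obtain ⟨H, hH, hHb, hH1⟩ := J.lgp S
  have hsub : {s : ℂ | θ < s.re} ⊆ {s : ℂ | θ₀ < s.re} := fun s hs => lt_of_le_of_lt h3 hs
  have hsub2 : {s : ℂ | θ < s.re} ⊆ {s : ℂ | 1 / 2 < s.re} := fun s hs => lt_of_le_of_lt (h1.trans h3) hs
  refine ⟨fun s => Complex.exp (P s + H s), ?_, fun s _ => Complex.exp_ne_zero _, fun s hs => ?_, fun σ hσ hσ1 => ?_⟩
  · exact ((hP.mono hsub).add (hH.mono hsub2)).cexp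
  · rw [(J.eul S).2 s hs, hH1 s hs, ← hP1 s hs]
  · obtain ⟨C₁, hC₁⟩ := hPb σ (by linarith) hσ1
    obtain ⟨C₂, hC₂⟩ := hHb σ (by linarith)
    refine ⟨C₁ + |C₂|, fun s hs => ?_⟩
    rw [Complex.norm_exp, Real.log_exp]
    have h4 := hC₁ s hs
    have h5 := hC₂ s hs
    have h6 : 1 ≤ (Real.log (|s.im| + 3)) ^ (1 - σ) := Real.one_le_rpow (log_ge_one _) (by linarith)
    calc |(P s + H s).re| ≤ ‖P s + H s‖ := Complex.abs_re_le_norm _
      _ ≤ ‖P s‖ + ‖H s‖ := norm_add_le _ _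
      _ ≤ C₁ * (Real.log (|s.im| + 3)) ^ (1 - σ) + |C₂| * (Real.log (|s.im| + 3)) ^ (1 - σ) := by
          refine add_le_add h4 ?_
          calc ‖H s‖ ≤ |C₂| := h5.trans (le_abs_self _)
            _ = |C₂| * 1 := (mul_one _).symm
            _ ≤ |C₂| * (Real.log (|s.im| + 3)) ^ (1 - σ) := mul_le_mul_of_nonneg_left h6 (abs_nonneg _)
      _ = (C₁ + |C₂|) * (Real.log (|s.im| + 3)) ^ (1 - σ) := by ring

theorem growth {a b : ℝ} (C : ℝ) (ha0 : 0 < a) (ha : a < 1) (hb : 0 < b) : ∃ D : ℝ, ∀ y : ℝ, 1 ≤ y → C * y ^ a ≤ D + b * y := by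
  -- `C y ^ a ≤ b y` for large `y`
  have h1 : Tendsto (fun y : ℝ => y ^ (1 - a)) atTop atTop := tendsto_rpow_atTop (by linarith)
  obtain ⟨Y, hY⟩ := eventually_atTop.1 (h1.eventually_ge_atTop (|C| / b))
  refine ⟨|C| * (max Y 1) ^ a, fun y hy => ?_⟩
  have hy0 : 0 < y := by linarith
  rcases le_total Y y with h2 | h2
  · have h3 := hY y h2
    rw [div_le_iff₀ hb] at h3
    have h4 : C * y ^ a ≤ b * y := by
      calc C * y ^ a ≤ |C| * y ^ a := mul_le_mul_of_nonneg_right (le_abs_self _) (Real.rpow_nonneg hy0.le _)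
        _ ≤ y ^ (1 - a) * b * y ^ a := mul_le_mul_of_nonneg_right h3 (Real.rpow_nonneg hy0.le _)
        _ = b * (y ^ (1 - a) * y ^ a) := by ring
        _ = b * y := by rw [← Real.rpow_add hy0]; norm_num
    have h5 : 0 ≤ |C| * (max Y 1) ^ a := mul_nonneg (abs_nonneg _) (Real.rpow_nonneg (le_trans zero_le_one (le_max_right _ _)) _)
    linarith
  · have h3 : C * y ^ a ≤ |C| * (max Y 1) ^ a := by
      calc C * y ^ a ≤ |C| * y ^ a := mul_le_mul_of_nonneg_right (le_abs_self _) (Real.rpow_nonneg hy0.le _)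
        _ ≤ |C| * (max Y 1) ^ a := mul_le_mul_of_nonneg_left (Real.rpow_le_rpow hy0.le (h2.trans (le_max_left _ _)) ha0.le)
            (abs_nonneg _)
    have h4 : 0 ≤ b * y := by positivity
    linarith

theorem mer_of_lin {S : Set ℕ} {θ : ℝ} (h0 : 0 < θ) (h1 : θ < 1) (h : Lin S θ) : Mer S θ := by
  obtain ⟨G, hG, hG0, hG1, hGb⟩ := h
  intro ε hε
  have hgr : ∀ σ ε' : ℝ, θ < σ → 0 < ε' → ∃ C : ℝ, ∀ s : ℂ, σ ≤ s.re → ‖G s‖ ≤ C * (|s.im| + 3) ^ ε' := by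
    intro σ ε' hσ hε'
    obtain ⟨σ', hσ'⟩ : ∃ σ' : ℝ, σ' = min σ ((θ + 1) / 2) := ⟨_, rfl⟩
    have g1 : θ < σ' := by rw [hσ']; exact lt_min hσ (by linarith)
    have g2 : σ' < 1 := by rw [hσ']; exact lt_of_le_of_lt (min_le_right _ _) (by linarith)
    have g3 : σ' ≤ σ := by rw [hσ']; exact min_le_left _ _
    obtain ⟨C, hC⟩ := hGb σ' g1 g2
    obtain ⟨D, hD⟩ := growth J (a := 1 - σ') (b := ε') C (by linarith) (by linarith) hε'
    refine ⟨Real.exp D, fun s hs => ?_⟩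
    have hs' : θ < s.re := by linarith
    have hpos : 0 < ‖G s‖ := norm_pos_iff.2 (hG0 s hs')
    have h4 : Real.log ‖G s‖ ≤ D + ε' * Real.log (|s.im| + 3) :=
      (le_abs_self _).trans ((hC s (g3.trans hs)).trans (hD _ (log_ge_one _)))
    have h5 : 0 < |s.im| + 3 := by have := abs_nonneg s.im; linarith
    calc ‖G s‖ = Real.exp (Real.log ‖G s‖) := (Real.exp_log hpos).symm
      _ ≤ Real.exp (D + ε' * Real.log (|s.im| + 3)) := Real.exp_le_exp.2 h4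
      _ = Real.exp D * (|s.im| + 3) ^ ε' := by
          rw [Real.exp_add, Real.rpow_def_of_pos h5, mul_comm ε']
  obtain ⟨C, hC⟩ := J.perr J.riesz J.shift (fun n => (lam S n : ℂ)) G θ (fun n => by
    rw [Complex.norm_real, Real.norm_eq_abs]; exact (J.eul S).1 n) h0 h1 hG hG1 hgr ε hε
  refine ⟨C, fun x hx => ?_⟩
  have h2 := hC x hx
  rwa [← Complex.ofReal_sum, Complex.norm_real, Real.norm_eq_abs] at h2

theorem cnt_of_mer {S : Set ℕ} {θ : ℝ} (h0 : 0 ≤ θ) (h1 : θ < 1) (h : Mer S θ) : Cnt S θ := by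
  refine J.an (fun n => (lam S n : ℂ)) θ h0 h1 (fun n => by
    rw [Complex.norm_real, Real.norm_eq_abs]; exact (J.eul S).1 n) (fun ε hε => ?_)
  obtain ⟨C, hC⟩ := h ε hε
  refine ⟨C, fun x hx => ?_⟩
  rw [← Complex.ofReal_sum, Complex.norm_real, Real.norm_eq_abs]
  exact hC x hx

theorem allF_lin {δ θ : ℝ} (h0 : 0 ≤ δ) (h1 : δ < 1) (h : (1 + δ) / 2 ≤ θ) : AllF δ (fun S => Lin S θ) := by
  intro Ω _ μ _ A hA hI
  filter_upwards [J.asf J.entg J.hoef J.sup Ω μ A hA δ h0 h1 hI] with ω hω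
  exact lin_of_tw J (by linarith) (by linarith) h hω

omit J in
theorem abs_dd {β : ℝ} (hβ : β < 1) (n : ℕ) : |dd β n| ≤ 1 := by
  unfold dd
  split_ifs with h
  · rw [abs_of_nonneg (Real.rpow_nonneg (Nat.cast_nonneg _) _)]
    exact Real.rpow_le_one_of_one_le_of_nonpos (by exact_mod_cast h.one_lt.le) (by linarith)
  · simp

theorem someF_pole {δ : ℝ} (h0 : 0 < δ) (h1 : δ < 1) : SomeF δ (fun S => ∀ θ : ℝ, θ < (1 + δ) / 2 → ¬ Cnt S θ) := by
  obtain ⟨β, hβ⟩ : ∃ β : ℝ, β = (1 + δ) / 2 := ⟨_, rfl⟩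
  have b1 : 1 / 2 < β := by rw [hβ]; linarith
  have b2 : β < 1 := by rw [hβ]; linarith
  have hab := fun n => abs_le.1 (abs_dd b2 n)
  have hmod := isModel (ι := ℕ) (p := fun n => (1 + dd β n) / 2) (fun n => by have := (hab n).1; linarith)
    (fun n => by have := (hab n).2; linarith)
  refine ⟨ℕ → Bool, inferInstance, prodMeasure (fun n => (1 + dd β n) / 2), inferInstance, trueSet, hmod.meas, fun k => ?_, ?_⟩
  · refine (J.klf _ _ _ (dd β) (abs_dd b2) hmod (pb k)).trans ?_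
    have h2 : ∀ p ∈ pb k, dd β p ^ 2 ≤ (2 : ℝ) ^ ((δ - 1) * k) := by
      intro p hp
      unfold pb block at hp
      rw [mem_filter, mem_Ico] at hp
      unfold dd
      rw [if_pos hp.2]
      have hp0 : (0 : ℝ) < p := by exact_mod_cast hp.2.pos
      rw [← Real.rpow_natCast, ← Real.rpow_mul hp0.le]
      have h3 : (2 : ℝ) ^ (k : ℝ) ≤ p := by
        rw [Real.rpow_natCast]
        exact_mod_cast hp.1.1
      have h4 : (p : ℝ) ^ ((β - 1) * ((2 : ℕ) : ℝ)) ≤ ((2 : ℝ) ^ (k : ℝ)) ^ ((β - 1) * ((2 : ℕ) : ℝ)) :=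
        Real.rpow_le_rpow_of_nonpos (by positivity) h3 (by push_cast; linarith)
      refine h4.trans (le_of_eq ?_)
      rw [← Real.rpow_mul (by norm_num)]
      congr 1
      rw [hβ]
      push_cast
      ring
    have h5 : ((pb k).card : ℝ) ≤ (2 : ℝ) ^ (k : ℝ) := by
      have h6 : (pb k).card ≤ 2 ^ k := by
        refine (card_filter_le _ _).trans ?_
        unfold block
        rw [Nat.card_Ico, pow_succ]
        omega
      rw [Real.rpow_natCast]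
      exact_mod_cast h6
    calc ∑ n ∈ pb k, dd β n ^ 2 ≤ ∑ _n ∈ pb k, (2 : ℝ) ^ ((δ - 1) * k) := sum_le_sum h2
      _ = (pb k).card * (2 : ℝ) ^ ((δ - 1) * k) := by rw [sum_const, nsmul_eq_mul]
      _ ≤ (2 : ℝ) ^ (k : ℝ) * (2 : ℝ) ^ ((δ - 1) * k) := mul_le_mul_of_nonneg_right h5 (by positivity)
      _ = (2 : ℝ) ^ (δ * k) := by
          rw [← Real.rpow_add (by norm_num)]
          congr 1
          ring
  · filter_upwards [J.shf J.tail _ _ _ β b2 hmod] with ω hω θ hθ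
    exact J.pole J.lgp J.eul J.an (trueSet ω) β θ b1 b2 (by rw [hβ]; exact hθ) hω

theorem not_allF {δ : ℝ} {P Q : Set ℕ → Prop} (h : SomeF δ P) (hPQ : ∀ S, P S → ¬ Q S) : ¬ AllF δ Q := by
  intro h2
  obtain ⟨Ω, hΩ, μ, hμ, A, hA, hC, h3⟩ := h
  have hI : InfoF μ A δ := by
    intro ε hε
    refine Eventually.of_forall (fun k => (hC k).trans ?_)
    refine Real.rpow_le_rpow_of_exponent_le (by norm_num) ?_
    have : (0 : ℝ) ≤ k := Nat.cast_nonneg k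
    nlinarith
  have h5 : ∀ᵐ ω ∂μ, False := by
    filter_upwards [h3, h2 Ω μ A hA hI] with ω h6 h7
    exact hPQ _ h6 h7
  exact (Filter.eventually_false_iff_eq_bot.1 h5 ▸ (inferInstance : (ae μ).NeBot)).ne rfl

theorem lin_iff {δ θ : ℝ} (h0 : 0 ≤ δ) (h1 : δ < 1) (h2 : 1 / 2 ≤ θ) (h3 : θ < 1) :
    AllF δ (fun S => Lin S θ) ↔ (1 + δ) / 2 ≤ θ := by
  refine ⟨fun h => ?_, fun h => allF_lin J h0 h1 h⟩
  by_contra hlt
  rw [not_le] at hlt
  refine not_allF J (someF_pole J (by linarith) h1) (fun S hS hL => ?_) h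
  obtain ⟨G, hG, -, hG1, -⟩ := hL
  exact hS θ hlt ⟨G, hG, hG1⟩

theorem mer_iff {δ θ : ℝ} (h0 : 0 ≤ δ) (h1 : δ < 1) (h2 : 1 / 2 ≤ θ) (h3 : θ < 1) :
    AllF δ (fun S => Mer S θ) ↔ (1 + δ) / 2 ≤ θ := by
  refine ⟨fun h => ?_, fun h => ?_⟩
  · by_contra hlt
    rw [not_le] at hlt
    exact not_allF J (someF_pole J (by linarith) h1) (fun S hS hL => hS θ hlt (cnt_of_mer J (by linarith) h3 hL)) h
  · intro Ω _ μ _ A hA hI
    filter_upwards [allF_lin J h0 h1 h Ω μ A hA hI] with ω hω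
    exact mer_of_lin J (by linarith) h3 hω

end

end Pool.Agent.Q120.FZ
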