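import Pool.Agent.Q120.TT.Stm
import Pool.Agent.Q120.RZ.Stm
import Mathlib.NumberTheory.EulerProduct.ExpLog
import Mathlib.Analysis.MellinInversion

/-!
# Project FZ: the Lindelöf hypothesis and the Riemann hypothesis for ALL random multiplicative functions of large entropy

`f` is a completely multiplicative function with values `1`, `-1`; `f p = sg S p`, where `S` is the set of the primes with
`f p = 1`. For a random set `A` let `D_k = relEnt half μ A (pb k)` be the relative entropy (nats) of the law of the signs of the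
primes of `[2 ^ k, 2 ^ (k + 1))` with respect to independent fair signs (the entropy deficit of the signs in the block; nothing
is assumed about the dependence between different blocks). Results of the project, assembled from the jobs below, for
`0 ≤ δ < 1`, `1/2 ≤ θ < 1`: the following are equivalent: (a) `(1 + δ) / 2 ≤ θ`; (b) for every `A` with
`D_k ≤ 2 ^ ((δ + o(1)) k)` almost surely `F s = ∑ f n n ^ (-s)` has an analytic continuation WITHOUT ZEROS to `Re s > θ`, and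
`|log |F (σ + it)|| ≤ C (log (|t| + 3)) ^ (1 - σ)` there (so the Lindelöf hypothesis holds for `F`); (c) for every such `A` almost
surely `∑_{n ≤ x} f n = O (x ^ (θ + ε))` (the analogue of the Riemann hypothesis in the form of Mertens' function).

Each job is a definition `J_… : Prop`; a theorem `t_… : J_…` is to be proved. The proofs are complete in the docstrings.
Notation of the project TT (`Q120.TT.Stm`): `prodOn p B T = ∏_{n ∈ T} p n ∏_{n ∈ B \ T} (1 - p n)`, `relEnt`, `IsLaw`,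
`J_ENTG` (proved: `Pool.Agent.Q111.TT.t_ENTG`, module `Pool.Agent.Q111.TT.ENTG`). Notation of the project RZ (`Q120.RZ.Stm`):
`num'`, `J_TAIL` (proved: `Q299.RZ.t_TAIL`), `J_AN` (proved: `Pool.Agent.Q247.RZ.t_AN`); see also the proofs of `J_ACL`
(`Pool.Agent.Q58.RZ.t_ACL`), `J_LG` (`Pool.Agent.Q58.RZ.t_LG`), `J_KL` (`Q299.RZ.t_KL`), which are similar to jobs below.
-/

set_option autoImplicit false

namespace Pool.Agent.Q120.FZ

open Finset MeasureTheory Filter Pool.Agent.Q120.ET Pool.Agent.Q120.GM Pool.Agent.Q120.TT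
open scoped Topology

open Classical in
/-- The sign of the prime `p`. -/
noncomputable def sg (S : Set ℕ) (p : ℕ) : ℝ := if p ∈ S then 1 else -1

/-- The completely multiplicative function with the values `sg S p` at the primes. -/
noncomputable def lam (S : Set ℕ) (n : ℕ) : ℝ := if n = 0 then 0 else (n.primeFactorsList.map (sg S)).prod

/-- The primes of the block. -/
def pb (k : ℕ) : Finset ℕ := (block k).filter Nat.Prime

/-- The twisted sums over the primes of the block. -/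
noncomputable def W (S : Set ℕ) (k x : ℕ) (t : ℝ) : ℂ :=
  ∑ p ∈ (pb k).filter (fun p => p ≤ x), (sg S p : ℂ) * (p : ℂ) ^ (-((t : ℂ) * Complex.I))

/-- Fair coins. -/
noncomputable def half (_ : ℕ) : ℝ := 1 / 2

/-- The entropy deficit of the block `k` is at most `2 ^ ((δ + o(1)) k)`. -/
def InfoF {Ω : Type} [MeasurableSpace Ω] (μ : Measure Ω) (A : Ω → Set ℕ) (δ : ℝ) : Prop :=
  ∀ ε : ℝ, 0 < ε → ∀ᶠ k : ℕ in atTop, relEnt half μ A (pb k) ≤ (2 : ℝ) ^ ((δ + ε) * k)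

/-! ## Part A: probability -/

open Classical in
/-- **Job HOEF.** Hoeffding's inequality with complex coefficients.
Proof. Real coefficients `a`, `∑ a ^ 2 ≤ V`: for `l > 0` `∑ T ⊆ B, prodOn half B T * exp (l ∑ sg T n * a n) = ∏_{n ∈ B} cosh (l a n)`
(`Finset.prod_add`, `sg T n = 1` for `n ∈ T`, `-1` for `n ∈ B \ T`), at most `exp (l ^ 2 V / 2)` (`Real.cosh_le_exp_half_sq`); so the
event `u ≤ ∑` has probability at most `exp (l ^ 2 V / 2 - l u)`, `exp (-u ^ 2 / (2 V))` for `l = u / V`; the same for `-a`. If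
`t ≤ ‖∑‖` then the real or the imaginary part is at least `t / √2` in absolute value: `4 exp (-t ^ 2 / (4 V))`. -/
def J_HOEF : Prop := ∀ (B : Finset ℕ) (c : ℕ → ℂ) (V t : ℝ), ∑ n ∈ B, ‖c n‖ ^ 2 ≤ V → 0 < V → 0 < t →
  ∑ T ∈ B.powerset with t ≤ ‖∑ n ∈ B, (sg ((T : Finset ℕ) : Set ℕ) n : ℂ) * c n‖, prodOn half B T ≤
    4 * Real.exp (-(t ^ 2 / (4 * V)))

open Classical in
/-- **Job SUP** (uses HOEF). All `x` in the block and all `|t| ≤ e ^ L`.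
Proof. The numbers `t' = j / 4 ^ (k + 1)`, `j` an integer, `|j| ≤ 4 ^ (k + 1) e ^ L`: there are at most `3 * 4 ^ (k + 1) * e ^ L`, and
for every `t`, `|t| ≤ e ^ L`, there is one with `|t - t'| ≤ 4 ^ (-(k + 1))` (round towards `0`). As
`‖p ^ (-it) - p ^ (-it')‖ ≤ |t - t'| log p ≤ (k + 1) / 4 ^ (k + 1)` (`p < 2 ^ (k + 1)`) and there are at most `2 ^ k` primes in the
block, `‖W S k x t - W S k x t'‖ ≤ 1`. So `l ≤ ‖W S k x t'‖` for one of at most `2 ^ (k + 1) * 3 * 4 ^ (k + 1) * e ^ L` pairs `(x, t')`;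
HOEF with `V = 2 ^ k`, `c p = p ^ (-it')` for `p ≤ x`, else `0`. The sum is at most
`12 * 8 ^ (k + 1) * exp (L - l ^ 2 / (4 * 2 ^ k)) ≤ exp (-l ^ 2 / (8 * 2 ^ k))`, as `12 * 8 ^ (k + 1) ≤ exp (5 k + 10)`. -/
def J_SUP : Prop := J_HOEF → ∀ (k : ℕ) (L l : ℝ), 0 ≤ L → 0 < l → 8 * 2 ^ k * (L + 5 * k + 10) ≤ l ^ 2 →
  ∑ T ∈ (pb k).powerset with (∃ (x : ℕ) (t : ℝ), x < 2 ^ (k + 1) ∧ |t| ≤ Real.exp L ∧
    l + 1 ≤ ‖W ((T : Finset ℕ) : Set ℕ) k x t‖), prodOn half (pb k) T ≤ Real.exp (-(l ^ 2 / (8 * 2 ^ k)))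

/-- The twisted sums have exponent `θ`. -/
def Tw (S : Set ℕ) (θ : ℝ) : Prop := ∀ θ' : ℝ, θ < θ' → ∃ C : ℝ, ∀ (k x : ℕ) (t : ℝ),
  ‖W S k x t‖ ≤ C * ((2 : ℝ) ^ (θ' * k) + (2 : ℝ) ^ ((k : ℝ) / 2) * √(Real.log (|t| + 3)))

/-- **Job ASF** (uses ENTG, HOEF, SUP). All random signs of large entropy.
Proof. `lawOn μ A (pb k)` is a law (`IsLaw half`; `prodOn half B T = 2 ^ (-|B|) ≠ 0`). Fix `ε > 0` with `δ + 2 ε < 1`. For
`j ≤ k` let `l ^ 2 = 8 * 2 ^ k * (2 ^ ((δ + 2 ε) k) + 2 ^ j + 5 k + 10)` and `F` the event of SUP with `L = 2 ^ j` (it only depends on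
`tr A (pb k)`, as `sg`). By SUP and ENTG (`u = l ^ 2 / (8 * 2 ^ k) ≥ 2 ^ ((δ + 2 ε) k)`) it has probability at most
`(1 + 2 ^ ((δ + ε) k)) / 2 ^ ((δ + 2 ε) k)` for `A` and large `k`. The sum over `j ≤ k` is at most `2 (k + 1) 2 ^ (-ε k)`, summable over
`k`; Borel–Cantelli (`GM.bc`). So almost surely for `k ≥ K`: if `x < 2 ^ (k + 1)` (larger `x` do not matter) and
`log |t| ≤ 2 ^ k`, take the least `j` with `|t| ≤ exp (2 ^ j)`; then `2 ^ j ≤ 2 log (|t| + 3)` (`j = 0`: `1 ≤ log 3`) and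
`‖W‖ ≤ 1 + l ≤ 1 + 3 * 2 ^ ((1 + δ + 2 ε) k / 2) + 4 * 2 ^ (k / 2) √(log (|t| + 3)) + 2 ^ (k / 2) √(40 k + 80)`. If `log |t| > 2 ^ k` then
`‖W‖ ≤ 2 ^ k ≤ 2 ^ (k / 2) √(log (|t| + 3))`. For `k < K` `‖W‖ ≤ 2 ^ K`. Finally all `ε = 1 / (m + m₀)` at once. -/
def J_ASF : Prop := J_ENTG → J_HOEF → J_SUP → ∀ (Ω : Type) [MeasurableSpace Ω] (μ : Measure Ω) [IsProbabilityMeasure μ]
  (A : Ω → Set ℕ), IsRandomSet A → ∀ δ : ℝ, 0 ≤ δ → δ < 1 → InfoF μ A δ → ∀ᵐ ω ∂μ, Tw (A ω) ((1 + δ) / 2)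

/-! ## Part B: analysis -/

/-- **Job CONT.** The continuation of the sum over the primes.
Proof. `B k s = ∑ p ∈ pb k, sg S p * p ^ (-s)`, entire. Partial summation: for `Re s = σ ≥ 0`, `Im s = t`,
`‖B k s‖ ≤ 2 ^ (-k σ) * max_x ‖W S k x t‖` (the weights `p ^ (-σ)` are nonincreasing, at most `2 ^ (-k σ)`; Abel), so
for `θ < θ' < σ` `‖B k s‖ ≤ C (2 ^ ((θ' - σ) k) + 2 ^ ((1/2 - σ) k) √ℓ)`, `ℓ = log (|t| + 3)`; also `‖B k s‖ ≤ 2 ^ ((1 - σ) k)`. So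
`∑ k, B k s` converges locally uniformly for `Re s > θ` and is analytic (`differentiableOn_tsum_of_summable_norm` on the
open sets `Re s > σ₀`, `|Im s| < R`); for `Re s > 1` it is the (absolutely convergent) sum over the primes. The bound for
`Re s ≥ σ` (`θ < σ < 1`, replace `Re s` by `σ` in the bounds): the `k` with `2 ^ k ≤ ℓ` contribute at most
`∑ 2 ^ ((1 - σ) k) ≤ C ℓ ^ (1 - σ)`, the others at most `C ∑ 2 ^ ((θ' - σ) k) + C √ℓ ∑_{2 ^ k > ℓ} 2 ^ ((1/2 - σ) k) ≤ C + C √ℓ ℓ ^ (1/2 - σ)`. -/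
def J_CONT : Prop := ∀ (S : Set ℕ) (θ : ℝ), 1 / 2 ≤ θ → θ < 1 → Tw S θ →
  ∃ P : ℂ → ℂ, DifferentiableOn ℂ P {s | θ < s.re} ∧
    (∀ s : ℂ, 1 < s.re → P s = ∑' p : Nat.Primes, (sg S p : ℂ) * ((p : ℕ) : ℂ) ^ (-s)) ∧
    ∀ σ : ℝ, θ < σ → σ < 1 → ∃ C : ℝ, ∀ s : ℂ, σ ≤ s.re → ‖P s‖ ≤ C * (Real.log (|s.im| + 3)) ^ (1 - σ)

/-- **Job LGP.** The prime powers.
Proof. As `J_LG` of the project RZ (`Pool.Agent.Q58.RZ.t_LG`), with `H s = ∑' p, (-log (1 - sg S p * p ^ (-s)) - sg S p * p ^ (-s))`;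
the terms are at most `2 p ^ (-2 σ)` times a constant in norm for `Re s ≥ σ > 1/2` (`‖p ^ (-s)‖ ≤ 2 ^ (-1/2) < 1`). -/
def J_LGP : Prop := ∀ S : Set ℕ, ∃ H : ℂ → ℂ, DifferentiableOn ℂ H {s | 1 / 2 < s.re} ∧
  (∀ σ : ℝ, 1 / 2 < σ → ∃ C : ℝ, ∀ s : ℂ, σ ≤ s.re → ‖H s‖ ≤ C) ∧
  ∀ s : ℂ, 1 < s.re → ∑' p : Nat.Primes, -Complex.log (1 - (sg S p : ℂ) * ((p : ℕ) : ℂ) ^ (-s)) =
    (∑' p : Nat.Primes, (sg S p : ℂ) * ((p : ℕ) : ℂ) ^ (-s)) + H s

/-- **Job EUL.** The Euler product.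
Proof. `EulerProduct.exp_tsum_primes_log_eq_tsum` for the homomorphism `n ↦ lam S n * n ^ (-s)` (`ℕ →*₀ ℂ`, `0` at `0`; the
multiplicativity by `Nat.perm_primeFactorsList_mul`), summable as `‖·‖ ≤ n ^ (-σ)`, `σ > 1`. -/
def J_EUL : Prop := ∀ (S : Set ℕ), (∀ n, |lam S n| ≤ 1) ∧ ∀ s : ℂ, 1 < s.re → LSeries (fun n => (lam S n : ℂ)) s =
  Complex.exp (∑' p : Nat.Primes, -Complex.log (1 - (sg S p : ℂ) * ((p : ℕ) : ℂ) ^ (-s)))

/-- **Job RIESZ.** Perron's formula for the first Riesz mean.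
Proof. `mellin_inversion` for `f u = max (1 - u) 0`, with `mellin f s = 1 / (s (s + 1))` for `Re s > 0` (`∫₀¹ (1 - u) u ^ (s - 1) du`),
vertically integrable: `max (1 - n / x) 0 = (1 / 2π) ∫ (n / x) ^ (-(c + it)) / ((c + it) (c + it + 1)) dt`. Multiply by `a n`
and sum over `n ≥ 1`; `∑` and `∫` may be exchanged (`MeasureTheory.integral_tsum` or `hasSum_integral_of_summable_integral_norm`):
the norms are at most `(n / x) ^ (-c) / (1 + t ^ 2)` up to a constant, and `c > 1`. -/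
def J_RIESZ : Prop := ∀ (a : ℕ → ℂ), (∀ n, ‖a n‖ ≤ 1) → ∀ x c : ℝ, 0 < x → 1 < c →
  ∑ n ∈ Icc 1 ⌊x⌋₊, a n * (1 - n / x) = 1 / (2 * Real.pi) * ∫ t : ℝ, LSeries a (c + t * Complex.I) *
    (x : ℂ) ^ (c + t * Complex.I) / ((c + t * Complex.I) * (c + t * Complex.I + 1))

/-- **Job SHIFT.** Shift of the line of integration.
Proof. The integral of `g` over the boundary of the rectangle with vertices `a - iT`, `b - iT`, `b + iT`, `a + iT` is zero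
(`Complex.integral_boundary_rect_eq_zero_of_differentiableOn`), the horizontal sides contribute at most
`2 (b - a) C (T + 3) ^ (-3/2)`, which tends to `0`, the vertical ones tend to the two integrals (integrable, by the bound and
continuity; `intervalIntegral_tendsto_integral`). -/
def J_SHIFT : Prop := ∀ (g : ℂ → ℂ) (θ a b C : ℝ), θ < a → a < b → DifferentiableOn ℂ g {s | θ < s.re} →
  (∀ s : ℂ, a ≤ s.re → s.re ≤ b → ‖g s‖ ≤ C * (|s.im| + 3) ^ (-(3 : ℝ) / 2)) →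
    ∫ t : ℝ, g (a + t * Complex.I) = ∫ t : ℝ, g (b + t * Complex.I)

/-- **Job PERR** (uses RIESZ, SHIFT). From the growth to the partial sums.
Proof. Let `R y = y * ∑_{n ≤ y} a n (1 - n / y) = ∑_{n ≤ y} a n (y - n)`; then `R (x + 1) - R x = ∑_{n ≤ x} a n` for integers
`x ≥ 1`. By RIESZ (`c = 2`) and SHIFT (`g s = G s * y ^ s / (s (s + 1))`, at most `C (|Im s| + 3) ^ (1/2 - 2)`) with
`σ = θ + ε / 2` (assume `σ < 1`), `∑_{n ≤ x} a n = (1 / 2π) ∫ G s * ((x + 1) ^ (s + 1) - x ^ (s + 1)) / (s (s + 1)) dt`, `s = σ + it`.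
`‖((x + 1) ^ (s + 1) - x ^ (s + 1)) / (s + 1)‖ ≤ (x + 1) ^ σ ≤ 2 x ^ σ` (it is the integral of `u ^ s` over `[x, x + 1]`) and
`≤ 2 (x + 1) ^ (σ + 1) / ‖s + 1‖ ≤ 8 x ^ (σ + 1) / ‖s + 1‖`, so at most `8 x ^ σ (x / ‖s + 1‖) ^ η` for `0 < η ≤ 1`. With
`‖G s‖ ≤ C (|t| + 3) ^ (η / 2)` the integral is at most `C x ^ (σ + η) ∫ (|t| + 3) ^ (η / 2 - 1 - η) dt`. Take `η = ε / 2`. -/
def J_PERR : Prop := J_RIESZ → J_SHIFT → ∀ (a : ℕ → ℂ) (G : ℂ → ℂ) (θ : ℝ), (∀ n, ‖a n‖ ≤ 1) → 0 < θ → θ < 1 →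
  DifferentiableOn ℂ G {s | θ < s.re} → (∀ s : ℂ, 1 < s.re → G s = LSeries a s) →
  (∀ σ ε : ℝ, θ < σ → 0 < ε → ∃ C : ℝ, ∀ s : ℂ, σ ≤ s.re → ‖G s‖ ≤ C * (|s.im| + 3) ^ ε) →
    ∀ ε : ℝ, 0 < ε → ∃ C : ℝ, ∀ x : ℕ, 1 ≤ x → ‖∑ n ∈ Icc 1 x, a n‖ ≤ C * (x : ℝ) ^ (θ + ε)

/-! ## Part C: the bound is sharp -/

/-- **Job KLF.** The relative entropy of independent signs.
Proof. As `J_KL` (`Q299.RZ.t_KL`): `lawOn μ A B T = prodOn p B T`, `p n = (1 + d n) / 2` (`Pool.Agent.Q111.GE.t_LAW`); by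
`log x ≤ x / c - 1 + log c` with `c = ∑ T ⊆ B, lawOn ^ 2 / prodOn half = ∏_{n ∈ B} (1 + d n ^ 2)` the relative entropy is at most
`log c ≤ ∑ d n ^ 2`. -/
def J_KLF : Prop := ∀ (Ω : Type) [MeasurableSpace Ω] (μ : Measure Ω) [IsProbabilityMeasure μ] (A : Ω → Set ℕ) (d : ℕ → ℝ),
  (∀ n, |d n| ≤ 1) → IsModel μ (fun n => (1 + d n) / 2) A → ∀ B : Finset ℕ, relEnt half μ A B ≤ ∑ n ∈ B, d n ^ 2

open Classical in
/-- The tilt. -/
noncomputable def dd (β : ℝ) (n : ℕ) : ℝ := if n.Prime then (n : ℝ) ^ (β - 1) else 0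

/-- **Job SHF** (uses RZ.TAIL). The deviations of the tilted signs.
Proof. For a set `I` of primes `∑_{p ∈ I} (sg S p - dd β p) = 2 (num' S I - ∑_{p ∈ I} (1 + dd β p) / 2)`. By TAIL (`V = 2 ^ k`) and
the union over `x < 2 ^ (k + 1)` the probability that some `x` has `2 ^ (θ k) ≤ |…|`, `1/2 < θ ≤ 1`, is at most
`2 ^ (k + 2) exp (-2 ^ (2 θ k) / (16 (2 ^ k + 2 ^ (θ k))))`, summable over `k`: `GM.bc`; finitely many `k` and all
`θ = 1/2 + 1 / (j + 2)` at once. -/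
def J_SHF : Prop := Pool.Agent.Q120.RZ.J_TAIL → ∀ (Ω : Type) [MeasurableSpace Ω] (μ : Measure Ω) [IsProbabilityMeasure μ]
  (A : Ω → Set ℕ) (β : ℝ), β < 1 → IsModel μ (fun n => (1 + dd β n) / 2) A →
    ∀ᵐ ω ∂μ, ∀ ε : ℝ, 0 < ε → ∃ C : ℝ, ∀ k x : ℕ,
      |∑ p ∈ (pb k).filter (fun p => p ≤ x), (sg (A ω) p - dd β p)| ≤ C * (2 : ℝ) ^ ((1 / 2 + ε) * k)

/-- **Job POLE** (uses LGP, EUL, RZ.AN). The pole.
Proof. Let `a n = (sg S n - n ^ (β - 1)) / 2` for primes `n`, else `0` (`‖a n‖ ≤ 1`); the partial sums over `[1, x]` are at most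
`C x ^ (1/2 + ε)` (sum over the blocks), so by AN (`θ = 1/2`) `R s = ∑' p, (sg S p - p ^ (β - 1)) p ^ (-s)` has an analytic
continuation to `Re s > 1/2`. By EUL and LGP for `S` and for `univ` (`lam univ n = 1` for `n ≥ 1`, `LSeries = riemannZeta`) for
`Re s > 1`: `F s = exp (R s + ∑' p ^ (-(s + 1 - β)) + H s)`, `ζ (s + 1 - β) = exp (∑' p ^ (-(s + 1 - β)) + H₁ (s + 1 - β))`, so
`F s = ζ (s + 1 - β) E s` with `E s = exp (R s + H s - H₁ (s + 1 - β))`, analytic and without zeros on `Re s > 1/2`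
(`Re (s + 1 - β) > 1/2` there). If `G` existed then `ζ (s + 1 - β) = G s / E s` for `Re s > β` (identity theorem, convex set), and
for real `s → β` from the right the left side is unbounded (`riemannZeta_residue_one`), the right side converges. -/
def J_POLE : Prop := J_LGP → J_EUL → Pool.Agent.Q120.RZ.J_AN → ∀ (S : Set ℕ) (β θ : ℝ), 1 / 2 < β → β < 1 → θ < β →
  (∀ ε : ℝ, 0 < ε → ∃ C : ℝ, ∀ k x : ℕ,
    |∑ p ∈ (pb k).filter (fun p => p ≤ x), (sg S p - dd β p)| ≤ C * (2 : ℝ) ^ ((1 / 2 + ε) * k)) →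
      ¬ ∃ G : ℂ → ℂ, DifferentiableOn ℂ G {s | θ < s.re} ∧ ∀ s : ℂ, 1 < s.re → G s = LSeries (fun n => (lam S n : ℂ)) s

end Pool.Agent.Q120.FZ
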